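import Mathlib
import Pool.Agent.Helper69.TS.Stmts

/-!
# The two scale argument: geometry of the points

The four statements `S_mate_mem`, `S_mate_near`, `S_near`, `S_geom`.
-/

set_option autoImplicit false

namespace Pool.Agent.Helper95.TS

open Finset Pool.Agent.Helper69.TS Pool.Agent.Helper73.RK

/-- Sizes of the moduli. -/
lemma bounds {c : Cfg} (h : c.Good) {p : ℕ} (hp : p ∈ c.P) :
    0 < (c.Q : ℝ) ∧ 0 < (p : ℝ) ∧ (c.Q : ℝ) ≤ p ∧ 8 * (c.m : ℝ) * p ≤ (8 * c.m + 1) * c.Q ∧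
      (2 : ℝ) ≤ c.m := by
  have h1 : 64 * c.m ≤ c.Q := h.hQ
  have h2 : 2 ≤ c.m := h.hm
  have hQ : 0 < c.Q := by omega
  have hlow : c.Q ≤ p := h.hlow p hp
  have hup : 8 * c.m * p ≤ (8 * c.m + 1) * c.Q := h.hup p hp
  refine ⟨by exact_mod_cast hQ, by exact_mod_cast (lt_of_lt_of_le hQ hlow), by exact_mod_cast hlow,
    by exact_mod_cast hup, by exact_mod_cast h2⟩

lemma X_diff {c : Cfg} (h : c.Good) {p : ℕ} (hp : p ∈ c.P) {q : ℕ} (hq : q ∈ c.P) (t : ℕ) :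
    Cfg.X ⟨p, t⟩ - Cfg.X (mate p t q) = ((t * q % p : ℕ) : ℝ) / (p * q) := by
  obtain ⟨-, hp0, -⟩ := bounds h hp
  obtain ⟨-, hq0, -⟩ := bounds h hq
  have e : (t : ℝ) * q = p * ((t * q / p : ℕ) : ℝ) + ((t * q % p : ℕ) : ℝ) := by
    exact_mod_cast (Nat.div_add_mod (t * q) p).symm
  have h1 : Cfg.X ⟨p, t⟩ = (t : ℝ) / p := rfl
  have h2 : Cfg.X (mate p t q) = ((t * q / p : ℕ) : ℝ) / q := rfl
  rw [h1, h2, div_sub_div _ _ hp0.ne' hq0.ne', e]
  congr 1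
  ring

lemma Y_diff {c : Cfg} (h : c.Good) {p : ℕ} (hp : p ∈ c.P) {q : ℕ} (hq : q ∈ c.P)
    (hf : c.f p q ≠ 0) (t : ℕ) :
    ∃ k : ℤ, c.Y ⟨p, t⟩ - c.Y (mate p t q) - k =
      (c.nn p q : ℝ) * (((t * q % p : ℕ) : ℝ) / (p * q)) := by
  obtain ⟨-, hp0, -⟩ := bounds h hp
  obtain ⟨-, hq0, -⟩ := bounds h hq
  obtain ⟨-, -, ⟨k1, hk1⟩, ⟨k2, hk2⟩⟩ := h.fmeet p hp q hq hf
  have e : (t : ℝ) * q = p * ((t * q / p : ℕ) : ℝ) + ((t * q % p : ℕ) : ℝ) := by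
    exact_mod_cast (Nat.div_add_mod (t * q) p).symm
  have e1 : (c.a p : ℝ) = c.nn p q - p * k1 := by
    have : c.a p = c.nn p q - p * k1 := by linarith
    rw [this]; push_cast; ring
  have e2 : (c.a q : ℝ) = c.nn p q - q * k2 := by
    have : c.a q = c.nn p q - q * k2 := by linarith
    rw [this]; push_cast; ring
  refine ⟨((t * q / p : ℕ) : ℤ) * k2 - t * k1, ?_⟩
  have h1 : c.Y ⟨p, t⟩ = (t : ℝ) * c.a p / p := rfl
  have h2 : c.Y (mate p t q) = ((t * q / p : ℕ) : ℝ) * c.a q / q := rfl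
  rw [h1, h2, e1, e2]
  have e3 : ((t * q % p : ℕ) : ℝ) = (t : ℝ) * q - p * ((t * q / p : ℕ) : ℝ) := by linarith
  rw [e3]
  clear h1 h2 e e1 e2 e3 hk1 hk2
  generalize t * q / p = u
  push_cast
  field_simp
  ring

/-- `nn` lies in `[1, N]`. -/
lemma nn_bounds {c : Cfg} (h : c.Good) {p : ℕ} (hp : p ∈ c.P) {q : ℕ} (hq : q ∈ c.P)
    (hf : c.f p q ≠ 0) : (1 : ℝ) ≤ c.nn p q ∧ (c.nn p q : ℝ) ≤ c.N := by
  obtain ⟨h1, h2, -⟩ := h.fmeet p hp q hq hf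
  exact ⟨by exact_mod_cast h1, by exact_mod_cast h2⟩

theorem s_mate_mem : S_mate_mem := by
  intro c h p hp t ht q hq _ hw
  rw [mem_Ico] at ht
  have hp0 : 0 < p := by omega
  have hqQ : c.Q ≤ q := h.hlow q hq
  have hQ : 0 < c.Q := by omega
  unfold mate Cfg.F
  rw [mem_sigma]
  refine ⟨hq, ?_⟩
  rw [mem_Ico]
  refine ⟨?_, ?_⟩
  · by_contra hc
    have hc' : ¬ 1 ≤ t * q / p := hc
    have h0 : t * q / p = 0 := by
      revert hc'
      generalize t * q / p = u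
      omega
    rw [Nat.div_eq_zero_iff] at h0
    rcases h0 with h0 | h0
    · omega
    · rw [Nat.mod_eq_of_lt h0] at hw
      have h3 : 1 * q ≤ t * q := Nat.mul_le_mul_right q ht.1
      rw [one_mul] at h3
      exact absurd (lt_of_le_of_lt (hqQ.trans h3) hw) (lt_irrefl _)
  · show t * q / p < q
    rw [Nat.div_lt_iff_lt_mul hp0, mul_comm q p]
    exact Nat.mul_lt_mul_of_pos_right ht.2 (by omega)

theorem s_mate_near : S_mate_near := by
  intro c h p hp t _ q hq hf w hw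
  obtain ⟨hQ0, hp0, hpQ, -⟩ := bounds h hp
  obtain ⟨-, hq0, hqQ, -⟩ := bounds h hq
  obtain ⟨hn1, hnN⟩ := nn_bounds h hp hq hf
  have hw0 : (0 : ℝ) ≤ ((t * q % p : ℕ) : ℝ) := Nat.cast_nonneg _
  have hA0 : 0 ≤ ((t * q % p : ℕ) : ℝ) / (p * q) := by positivity
  have hA : ((t * q % p : ℕ) : ℝ) / (p * q) ≤ w / (c.Q : ℝ) ^ 2 := by
    apply div_le_div₀ (le_trans hw0 hw) hw (by positivity)
    rw [sq]
    exact mul_le_mul hpQ hqQ hQ0.le hp0.le
  refine ⟨?_, ?_⟩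
  · rw [X_diff h hp hq t, abs_of_nonneg hA0]
    exact hA
  · obtain ⟨k, hk⟩ := Y_diff h hp hq hf t
    refine ⟨k, ?_⟩
    rw [hk, abs_of_nonneg (by positivity)]
    calc (c.nn p q : ℝ) * (((t * q % p : ℕ) : ℝ) / (p * q))
        ≤ c.N * (w / (c.Q : ℝ) ^ 2) := mul_le_mul hnN hA hA0 (Nat.cast_nonneg _)
      _ = w * c.N / (c.Q : ℝ) ^ 2 := by ring

theorem s_near : S_near := by
  intro c
  refine ⟨?_, ?_, ?_⟩
  · rintro w s s' ⟨h1, k, h2⟩
    refine ⟨by rwa [abs_sub_comm], -k, ?_⟩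
    have e : c.Y s' - c.Y s - ((-k : ℤ) : ℝ) = -(c.Y s - c.Y s' - k) := by push_cast; ring
    rw [e, abs_neg]
    exact h2
  · rintro w w' s s' s'' ⟨h1, k, h2⟩ ⟨h3, l, h4⟩
    refine ⟨?_, k + l, ?_⟩
    · have e : Cfg.X s - Cfg.X s'' = (Cfg.X s - Cfg.X s') + (Cfg.X s' - Cfg.X s'') := by ring
      rw [e, add_div]
      exact (abs_add_le _ _).trans (add_le_add h1 h3)
    · have e : c.Y s - c.Y s'' - ((k + l : ℤ) : ℝ) =
          (c.Y s - c.Y s' - k) + (c.Y s' - c.Y s'' - l) := by push_cast; ring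
      rw [e, add_mul, add_div]
      exact (abs_add_le _ _).trans (add_le_add h2 h4)
  · rintro w w' s s' hw ⟨h1, k, h2⟩
    have hQ : 0 ≤ (c.Q : ℝ) ^ 2 := by positivity
    refine ⟨h1.trans (div_le_div_of_nonneg_right hw hQ), k, h2.trans ?_⟩
    exact div_le_div_of_nonneg_right (mul_le_mul_of_nonneg_right hw (Nat.cast_nonneg _)) hQ

/-- The real inequalities behind `S_geom`. -/
lemma geom_real {Q p q r m v N w1 w2 n1 n2 : ℝ} (hQ : 0 < Q) (hm : 2 ≤ m) (hv : 0 < v)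
    (hN : 0 ≤ N) (hp : Q ≤ p) (hq : Q ≤ q) (hr : Q ≤ r) (hp' : 8 * m * p ≤ (8 * m + 1) * Q)
    (hq' : 8 * m * q ≤ (8 * m + 1) * Q) (hr' : 8 * m * r ≤ (8 * m + 1) * Q)
    (hw1 : m * v ≤ w1) (hw2 : m * v ≤ w2) (hw2' : w2 ≤ 2 * m * v)
    (hn2 : 0 ≤ n2) (hn2' : n2 ≤ N)
    (hX : |w1 / (p * q) - w2 / (p * r)| ≤ 2 * v / Q ^ 2)
    (hY : |n1 * (w1 / (p * q)) - n2 * (w2 / (p * r))| ≤ 2 * v * N / Q ^ 2) :
    |w1 - w2| ≤ 3 * v ∧ |n1 - n2| * (8 * m) ≤ 40 * N := by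
  have hp0 : 0 < p := lt_of_lt_of_le hQ hp
  have hq0 : 0 < q := lt_of_lt_of_le hQ hq
  have hr0 : 0 < r := lt_of_lt_of_le hQ hr
  have hm0 : 0 < m := by linarith
  have hp2 : p ≤ 17 / 16 * Q := by
    have : (8 * m) * p ≤ (8 * m) * (17 / 16 * Q) := by nlinarith
    exact le_of_mul_le_mul_left this (by positivity)
  have hq2 : q ≤ 17 / 16 * Q := by
    have : (8 * m) * q ≤ (8 * m) * (17 / 16 * Q) := by nlinarith
    exact le_of_mul_le_mul_left this (by positivity)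
  have hpq : p * q ≤ 289 / 256 * Q ^ 2 := by
    calc p * q ≤ (17 / 16 * Q) * (17 / 16 * Q) := mul_le_mul hp2 hq2 hq0.le (by positivity)
      _ = 289 / 256 * Q ^ 2 := by ring
  have hQ2 : 0 < Q ^ 2 := by positivity
  have hmv : 0 < m * v := by positivity
  have hw20 : 0 ≤ w2 := by linarith
  constructor
  · have e : w1 - w2 = p * q * (w1 / (p * q) - w2 / (p * r)) + w2 / r * (q - r) := by
      field_simp
      ring
    have h1 : |p * q * (w1 / (p * q) - w2 / (p * r))| ≤ 289 / 128 * v := by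
      rw [abs_mul, abs_of_nonneg (by positivity : 0 ≤ p * q)]
      calc p * q * |w1 / (p * q) - w2 / (p * r)| ≤ (289 / 256 * Q ^ 2) * (2 * v / Q ^ 2) :=
            mul_le_mul hpq hX (abs_nonneg _) (by positivity)
        _ = 289 / 128 * v := by field_simp; ring
    have h2 : |w2 / r * (q - r)| ≤ 1 / 4 * v := by
      rw [abs_mul, abs_of_nonneg (by positivity : 0 ≤ w2 / r)]
      have h3 : w2 / r ≤ 2 * m * v / Q := by
        apply div_le_div₀ (by positivity) hw2' hQ hr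
      have h4 : |q - r| ≤ Q / (8 * m) := by
        rw [abs_le]
        constructor
        · rw [← neg_sub, neg_le_neg_iff, le_div_iff₀ (by positivity)]
          nlinarith
        · rw [le_div_iff₀ (by positivity)]
          nlinarith
      calc w2 / r * |q - r| ≤ (2 * m * v / Q) * (Q / (8 * m)) :=
            mul_le_mul h3 h4 (abs_nonneg _) (by positivity)
        _ = 1 / 4 * v := by field_simp; ring
    rw [e]
    refine (abs_add_le _ _).trans ?_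
    linarith
  · have e : (n1 - n2) * (w1 / (p * q)) = (n1 * (w1 / (p * q)) - n2 * (w2 / (p * r))) -
        n2 * (w1 / (p * q) - w2 / (p * r)) := by ring
    have h1 : |(n1 - n2) * (w1 / (p * q))| ≤ 4 * v * N / Q ^ 2 := by
      rw [e]
      refine (abs_sub _ _).trans ?_
      have h2 : |n2 * (w1 / (p * q) - w2 / (p * r))| ≤ 2 * v * N / Q ^ 2 := by
        rw [abs_mul, abs_of_nonneg hn2]
        calc n2 * |w1 / (p * q) - w2 / (p * r)| ≤ N * (2 * v / Q ^ 2) :=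
              mul_le_mul hn2' hX (abs_nonneg _) hN
          _ = 2 * v * N / Q ^ 2 := by ring
      calc _ ≤ 2 * v * N / Q ^ 2 + 2 * v * N / Q ^ 2 := add_le_add hY h2
        _ = 4 * v * N / Q ^ 2 := by ring
    have hw10 : 0 ≤ w1 := by linarith
    rw [abs_mul, abs_of_nonneg (by positivity : 0 ≤ w1 / (p * q))] at h1
    have h3 : m * v / (289 / 256 * Q ^ 2) ≤ w1 / (p * q) :=
      div_le_div₀ hw10 hw1 (by positivity) hpq
    have h4 : |n1 - n2| * (m * v / (289 / 256 * Q ^ 2)) ≤ 4 * v * N / Q ^ 2 :=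
      (mul_le_mul_of_nonneg_left h3 (abs_nonneg _)).trans h1
    have h5 : |n1 - n2| * (m * v / (289 / 256 * Q ^ 2)) * (289 / 256 * Q ^ 2 / v) =
        |n1 - n2| * m := by field_simp
    have h6 : 4 * v * N / Q ^ 2 * (289 / 256 * Q ^ 2 / v) = 289 / 64 * N := by
      field_simp; ring
    have h7 : |n1 - n2| * m ≤ 289 / 64 * N := by
      rw [← h5, ← h6]
      exact mul_le_mul_of_nonneg_right h4 (by positivity)
    nlinarith

theorem s_geom : S_geom := by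
  intro c h p hp t _ q hq r hr v hfq hfr hv hvN hw1 hw2 ⟨hX, k, hY⟩
  obtain ⟨hQ0, hp0, hpQ, hpU, hm⟩ := bounds h hp
  obtain ⟨-, hq0, hqQ, hqU, -⟩ := bounds h hq
  obtain ⟨-, hr0, hrQ, hrU, -⟩ := bounds h hr
  obtain ⟨hn1, hn1N⟩ := nn_bounds h hp hq hfq
  obtain ⟨hn2, hn2N⟩ := nn_bounds h hp hr hfr
  obtain ⟨k1, hk1⟩ := Y_diff h hp hq hfq t
  obtain ⟨k2, hk2⟩ := Y_diff h hp hr hfr t
  have hX1 := X_diff h hp hq t
  have hX2 := X_diff h hp hr t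
  unfold Cfg.W at hw1 hw2
  rw [mem_Ioc] at hw1 hw2
  have hv0 : (0 : ℝ) < v := by exact_mod_cast hv
  have hN0 : (0 : ℝ) ≤ c.N := Nat.cast_nonneg _
  have a1 : (c.m : ℝ) * v ≤ ((t * q % p : ℕ) : ℝ) := by exact_mod_cast hw1.1.le
  have a2 : (c.m : ℝ) * v ≤ ((t * r % p : ℕ) : ℝ) := by exact_mod_cast hw2.1.le
  have b1 : ((t * q % p : ℕ) : ℝ) ≤ 2 * c.m * v := by exact_mod_cast hw1.2
  have b2 : ((t * r % p : ℕ) : ℝ) ≤ 2 * c.m * v := by exact_mod_cast hw2.2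
  have hvN' : (v : ℝ) * (8 * c.m) * c.N ≤ (c.Q : ℝ) ^ 2 := by
    rw [sq]; exact_mod_cast hvN
  have hQ2 : (0 : ℝ) < (c.Q : ℝ) ^ 2 := by positivity
  -- sizes of the two products
  have sz : ∀ (q' : ℕ) (n w : ℝ), (c.Q : ℝ) ≤ q' → 0 ≤ n → n ≤ c.N → 0 ≤ w →
      w ≤ 2 * c.m * v → 0 ≤ n * (w / (p * q')) ∧ n * (w / (p * q')) ≤ 1 / 4 := by
    intro q' n w hq' hn hnN hw hw'
    have hq'0 : (0 : ℝ) < q' := lt_of_lt_of_le hQ0 hq'
    refine ⟨by positivity, ?_⟩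
    have h1 : w / (p * q') ≤ 2 * c.m * v / (c.Q : ℝ) ^ 2 := by
      apply div_le_div₀ (by positivity) hw' hQ2
      rw [sq]
      exact mul_le_mul hpQ hq' hQ0.le hp0.le
    calc n * (w / (p * q')) ≤ c.N * (2 * c.m * v / (c.Q : ℝ) ^ 2) :=
          mul_le_mul hnN h1 (by positivity) hN0
      _ = (v * (8 * c.m) * c.N) / (c.Q : ℝ) ^ 2 / 4 := by ring
      _ ≤ 1 / 4 := by
          have : (v * (8 * c.m) * c.N) / (c.Q : ℝ) ^ 2 ≤ 1 := by
            rw [div_le_one hQ2]; exact hvN'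
          linarith
  obtain ⟨s1, s1'⟩ := sz q (c.nn p q) ((t * q % p : ℕ) : ℝ) hqQ (by linarith) hn1N
    (Nat.cast_nonneg _) b1
  obtain ⟨s2, s2'⟩ := sz r (c.nn p r) ((t * r % p : ℕ) : ℝ) hrQ (by linarith) hn2N
    (Nat.cast_nonneg _) b2
  have small : 2 * (v : ℝ) * c.N / (c.Q : ℝ) ^ 2 ≤ 1 / 8 := by
    rw [div_le_iff₀ hQ2]
    have h1 : (v : ℝ) * c.N * 2 ≤ (v : ℝ) * c.N * c.m :=
      mul_le_mul_of_nonneg_left hm (by positivity)
    nlinarith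
  have eY : c.Y (mate p t q) - c.Y (mate p t r) - k =
      (c.nn p r : ℝ) * (((t * r % p : ℕ) : ℝ) / (p * r)) -
        (c.nn p q : ℝ) * (((t * q % p : ℕ) : ℝ) / (p * q)) - ((k + k1 - k2 : ℤ) : ℝ) := by
    push_cast
    linarith
  have hk0 : k + k1 - k2 = 0 := by
    rw [eY] at hY
    have h1 := hY.trans small
    rw [abs_le] at h1
    have h2 : ((k + k1 - k2 : ℤ) : ℝ) < 1 := by linarith [h1.1, h1.2]
    have h3 : (-1 : ℝ) < ((k + k1 - k2 : ℤ) : ℝ) := by linarith [h1.1, h1.2]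
    have h4 : k + k1 - k2 < 1 := by exact_mod_cast h2
    have h5 : -1 < k + k1 - k2 := by exact_mod_cast h3
    omega
  rw [hk0] at eY
  have hY' : |(c.nn p q : ℝ) * (((t * q % p : ℕ) : ℝ) / (p * q)) -
      (c.nn p r : ℝ) * (((t * r % p : ℕ) : ℝ) / (p * r))| ≤ 2 * v * c.N / (c.Q : ℝ) ^ 2 := by
    rw [eY] at hY
    rw [abs_sub_comm]
    simpa using hY
  have hX' : |((t * q % p : ℕ) : ℝ) / (p * q) - ((t * r % p : ℕ) : ℝ) / (p * r)| ≤
      2 * v / (c.Q : ℝ) ^ 2 := by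
    have e : Cfg.X (mate p t q) - Cfg.X (mate p t r) =
        -(((t * q % p : ℕ) : ℝ) / (p * q) - ((t * r % p : ℕ) : ℝ) / (p * r)) := by
      linarith
    rw [e, abs_neg] at hX
    exact hX
  exact geom_real hQ0 hm hv0 hN0 hpQ hqQ hrQ hpU hqU hrU a1 a2 b2 (by linarith) hn2N hX' hY'

end Pool.Agent.Helper95.TS
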